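import Mathlib
import Pool.Agent.Lib.MP_13800a_gt.DimY
import Pool.Agent.Lib.MP_13800a_gt.Own
import Pool.Agent.Lib.MP_13800a_gt.TowerE
import Pool.Agent.Lib.MP_13800a_gt.TowerHE

/-!
A completely regular cell-like map between compact metric spaces from a space of finite covering
dimension onto a space of infinite covering dimension.
-/

set_option autoImplicit false

namespace Pool.Agent.Results.MP_13800a_gt.Counterexample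

open Pool.Agent.CRC Pool.Agent.CRC.Own

theorem result : ∃ (X Y A : Type) (_ : MetricSpace X) (_ : MetricSpace Y) (_ : MetricSpace A)
    (_ : CompactSpace X) (_ : CompactSpace Y) (f : X → Y),
    Continuous f ∧ Function.Surjective f ∧
    CellLikeSpace A ∧ (∀ y : Y, CellLikeSpace ↥(f ⁻¹' {y}) ∧ Nonempty (A ≃ₜ ↥(f ⁻¹' {y}))) ∧
    (∀ (y y' : Y) (ε : ℝ), dist y y' < ε → ∃ h : ↥(f ⁻¹' {y}) ≃ₜ ↥(f ⁻¹' {y'}),
      ∀ x : ↥(f ⁻¹' {y}), dist (x : X) (h x : X) < ε) ∧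
    (∀ 𝒰 : Set (Set X), (∀ U ∈ 𝒰, IsOpen U) → ⋃₀ 𝒰 = Set.univ →
      ∃ 𝒱 : Set (Set X), 𝒱.Finite ∧ (∀ V ∈ 𝒱, IsOpen V) ∧ ⋃₀ 𝒱 = Set.univ ∧
        (∀ V ∈ 𝒱, ∃ U ∈ 𝒰, V ⊆ U) ∧ ∀ x, {V ∈ 𝒱 | x ∈ V}.encard ≤ 192) ∧
    (∀ n : ℕ, ∃ 𝒰 : Set (Set Y), 𝒰.Finite ∧ (∀ U ∈ 𝒰, IsOpen U) ∧ ⋃₀ 𝒰 = Set.univ ∧
      ¬ ∃ 𝒱 : Set (Set Y), (∀ V ∈ 𝒱, IsOpen V) ∧ ⋃₀ 𝒱 = Set.univ ∧
        (∀ V ∈ 𝒱, ∃ U ∈ 𝒰, V ⊆ U) ∧ ∀ y, {V ∈ 𝒱 | y ∈ V}.encard ≤ n) := by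
  obtain ⟨A, _, _, _, actA, hA, h2, hc⟩ := exists_A64
  obtain ⟨T, hs, hl, hcov, hg⟩ := exists_towerE
  have hE := T.isKAct
  have : CompactSpace (Orb hE) := compactSpace_orb hE
  have : CompactSpace (Orb (hE.prod hA)) := compactSpace_orb (hE.prod hA)
  refine ⟨Orb (hE.prod hA), Orb hE, A, inferInstance, inferInstance, inferInstance, inferInstance,
    inferInstance, fmap hE hA, fmap_continuous hE hA, fmap_surjective hE hA, cellLikeSpace_of hc,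
    ?_, fmap_regular_unif hE hA, ?_, not_refine_of_not_finDim (T.not_finDim hs hg)⟩
  · intro y
    obtain ⟨e, he⟩ := pr_surjective hE y
    obtain ⟨φ, -⟩ := exists_fibre_homeo hE hA e y he.symm
    exact ⟨cellLikeSpace_homeo φ (cellLikeSpace_of hc), ⟨φ⟩⟩
  · exact refine_of_small_covers 192 (covers_prod hE hA (T.he_of_covers hl hcov) h2)

end Pool.Agent.Results.MP_13800a_gt.Counterexample
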