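import Pool.Agent.Lib.MP_13800a_gt.Center

set_option autoImplicit false

namespace Pool.Agent.Results.MP_13800a_gt.InvariantDendrite

open Pool.Agent.Lib.MP_13800a_gt

/-- Let `f : X → Y` be a completely regular proper map of metric spaces such that every fibre
contains a dendrite (possibly a single point) which is preserved by all self-homeomorphisms of the
fibre.  Then `f` has a continuous right inverse, and `dim X ≤ n` implies `dim Y ≤ n`. -/
theorem result (X Y : Type) [MetricSpace X] [MetricSpace Y] (f : X → Y)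
    (hp : IsProperMap f)
    (hcr : ∀ ε : ℝ, 0 < ε → ∀ y : Y, ∃ δ : ℝ, 0 < δ ∧ ∀ y' : Y, dist y' y < δ →
      ∃ h : ↥(f ⁻¹' {y}) ≃ₜ ↥(f ⁻¹' {y'}),
        ∀ x : ↥(f ⁻¹' {y}), dist (x : X) ((h x : ↥(f ⁻¹' {y'})) : X) < ε)
    (hD : ∀ y : Y, ∃ D : Set ↥(f ⁻¹' {y}), IsInvDendrite D) :
    (∃ s : Y → X, Continuous s ∧ ∀ y, f (s y) = y) ∧
      ∀ n : ℕ, CovDimLE n X → CovDimLE n Y := by
  obtain ⟨s, hs, hfs⟩ := exists_section f hp hcr hD
  exact ⟨⟨s, hs, hfs⟩, fun n hn => hn.of_section hp.continuous hs hfs⟩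

end Pool.Agent.Results.MP_13800a_gt.InvariantDendrite
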